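import Pool.Agent.Lib.MP_524519_ag.DU5.AB.Iface

/-! # DU5, chapter AB, module ISP: the properties of the ideals `IS` (helper22) -/

set_option autoImplicit false

namespace Pool.Agent.DU5.AB.H22

open MvPowerSeries Pool.Agent.DU5 Pool.Agent.DU5.AB

theorem vm_dvd {K : Type} [Field K] (x : Fin 3 → PowerSeries K) (i : Fin 3) :
    PowerSeries.X ^ vm x ∣ x i := by
  rw [PowerSeries.X_pow_dvd_iff]
  intro m hm
  by_contra hne
  exact Nat.notMem_of_lt_sInf hm ⟨i, hne⟩

/-- ISP. -/
theorem isp : ISPStatement := by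
  intro p hp k _ f
  have hp0 : 0 < p := hp.out.pos
  refine ⟨?_, ?_, ?_⟩
  · intro i j hij h hh K _ _ D x hD hx hx0 hf
    obtain ⟨g, hg⟩ := hh K D x hD hx hx0 hf
    have h1 : i * vm x / p ≤ j * vm x / p := Nat.div_le_div_right (Nat.mul_le_mul_right _ hij)
    obtain ⟨r, hr⟩ := Nat.exists_eq_add_of_le h1
    refine ⟨PowerSeries.X ^ r * g, fun l => ?_⟩
    rw [← hg l, hr, pow_add]
    ring
  · intro j i h hh K _ _ D x hD hx hx0 hf
    obtain ⟨g, hg⟩ := hh K D x hD hx hx0 hf
    obtain ⟨s, hs'⟩ := vm_dvd x i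
    have h1 : (j + p) * vm x / p = j * vm x / p + vm x := by
      rw [add_mul, Nat.add_mul_div_left _ _ hp0]
    have h2 : ev x (X i * h) = x i * ev x h := by
      rw [ev_mul hx]
      congr 1
      unfold ev
      exact subst_X (hs hx) i
    refine ⟨s * g, fun l => ?_⟩
    rw [h1, h2, mul_assoc (x i), ← hg l, pow_add]
    calc _ = (PowerSeries.X ^ vm x * s) * (PowerSeries.X ^ (j * vm x / p) * g *
          ev x (pderiv k l f)) := by ring
      _ = _ := by rw [← hs']
  · intro j K _ _ D x hD hx hx0 hf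
    refine ⟨0, fun l => ?_⟩
    rw [hf]
    ring

end Pool.Agent.DU5.AB.H22
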